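import Mathlib
import Pool.Agent.Q247.OS.Dich

/-!
# `k`-fold sums and products: an arbitrary set and a set with few popular primes
-/

set_option autoImplicit false

namespace Pool.Agent.Q247.OK

open Finset Pool.Agent.Y359.PE Pool.Agent.Q247.OS
open scoped Classical Pointwise

/-- the additive side for the sum of `k` elements of one set and an element of another set -/
lemma sums_casek (k : ℕ) (hk : 1 ≤ k) {ε' : ℝ} (hε : 0 < ε') (hε1 : ε' ≤ 1) (P : Finset ℕ)
    (hP : ∀ p ∈ P, p.Prime) (hPn : P.Nonempty) (S B : Finset ℤ) (hS : S.Nonempty)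
    (hB : B.Nonempty) (h0 : (0 : ℤ) ∉ S)
    (hs : ∀ x ∈ S, ∀ y ∈ S, (0 < x ↔ 0 < y)) (M : ℝ)
    (hM : M = 4 * k / ε' * Real.exp (6 * k / ε') * Real.log (2 * S.card))
    (hfib : ∀ x ∈ S, M ^ P.card ≤
      ((S.filter fun y => ∀ p, p ∉ P → fa x p = fa y p).card : ℝ)) :
    ((S.card : ℝ) ^ k * B.card) ^ (1 - ε') ≤
      (P.card * M + 1) ^ (2 * P.card * k) * (sk k S + B).card := by
  have h1 := W219.SP.fibre_k k P.card hk (card_pos.2 hPn) ε' hε hε1
    (fun i => (((P.equivFin.symm i : P) : ℕ) : ℚ)) (fun i => by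
      have := (hP _ (P.equivFin.symm i).2).pos
      exact_mod_cast this) S B hS hB M hM (fun x hx => by
      refine (hfib x hx).trans ?_
      have : (S.filter fun y => ∀ p, p ∉ P → fa x p = fa y p) ⊆
          S.filter fun y : ℤ => ∃ n : Fin P.card → ℤ,
            (y : ℚ) = x * ∏ i, (((P.equivFin.symm i : P) : ℕ) : ℚ) ^ n i := by
        intro y hy
        rw [mem_filter] at hy ⊢
        refine ⟨hy.1, fun i => (fa y (P.equivFin.symm i : P) : ℤ) - fa x (P.equivFin.symm i : P),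
          ?_⟩
        rw [rep P hP (fun h => h0 (h ▸ hx)) (fun h => h0 (h ▸ hy.1)) (hs x hx y hy.1) hy.2]
        congr 1
        rw [← prod_coe_sort P]
        exact (Equiv.prod_comp P.equivFin.symm fun p : P =>
          ((p : ℕ) : ℚ) ^ ((fa y p : ℤ) - fa x p)).symm
      exact_mod_cast card_le_card this)
  unfold sk
  convert h1

/-- sums with a set in which many elements have many companions -/
lemma long_sidek (k : ℕ) (hk : 1 ≤ k) {ε' γ δ ℓ C : ℝ} (hε0 : 0 < ε') (hε1 : ε' ≤ 1)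
    (hℓ2 : 2 ≤ ℓ)
    (hℓ1 : 1 ≤ Real.log ℓ) (hC : C = 4 * k / ε' * Real.exp (6 * k / ε'))
    (hℓC : 2 * C ≤ ℓ) (hδ : 2 * δ ≤ 1) (h4δ : 4 * δ ≤ γ) (P : Finset ℕ)
    (hP : ∀ p ∈ P, p.Prime) (hPr : ((P.card : ℝ) + 1) * Real.log ℓ ≤ 2 * δ * ℓ)
    (S : Finset ℤ) (hS0 : (0 : ℤ) ∉ S) (hSs : ∀ x ∈ S, ∀ y ∈ S, (0 < x ↔ 0 < y))
    (hSℓ : Real.log S.card ≤ ℓ) (T : Finset ℕ) (e : ℕ → ℕ)
    (hT : ∀ p, p ∉ P → p ∉ T → ∀ x ∈ S, fa x p = 0)
    (hne : (S.filter fun x => Real.exp (γ * ℓ) ≤ (fc S (Y359.PE.mk T (X e)) x : ℝ)).Nonempty)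
    (B : Finset ℤ) (hB : B.Nonempty) :
    (1 - ε') * (k * Real.log (S.filter fun x =>
      Real.exp (γ * ℓ) ≤ (fc S (Y359.PE.mk T (X e)) x : ℝ)).card +
      Real.log B.card) ≤ 16 * k * δ * ℓ + Real.log (sk k S + B).card := by
  set f := Y359.PE.mk T (X e) with hf
  set S2 := S.filter fun x => Real.exp (γ * ℓ) ≤ (fc S f x : ℝ) with hS2
  have hS2S : S2 ⊆ S := filter_subset _ _
  have hC0 : 0 < C := by
    have : (0 : ℝ) < k := by exact_mod_cast hk
    rw [hC]
    positivity
  have hℓ0 : 0 < ℓ := by linarith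
  have hS21 : (1 : ℝ) ≤ S2.card := by exact_mod_cast card_pos.2 hne
  set P' := insert 2 P with hP'
  have hP'p : ∀ p ∈ P', p.Prime := by
    intro p hp
    rcases mem_insert.1 hp with rfl | h
    · exact Nat.prime_two
    · exact hP p h
  set M : ℝ := 4 * k / ε' * Real.exp (6 * k / ε') * Real.log (2 * S2.card) with hM
  have hMC : M = C * Real.log (2 * S2.card) := by rw [hM, hC]
  have hM0 : 0 ≤ M := by
    rw [hMC]
    have : 0 ≤ Real.log (2 * (S2.card : ℝ)) := Real.log_nonneg (by linarith)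
    positivity
  have hMle : M ≤ C * (Real.log 2 + ℓ) := by
    rw [hMC]
    refine mul_le_mul_of_nonneg_left ?_ hC0.le
    rw [Real.log_mul (by norm_num) (by positivity)]
    have h1 : (S2.card : ℝ) ≤ S.card := by exact_mod_cast card_le_card hS2S
    have h2 := Real.log_le_log (by linarith) h1
    linarith
  have hr : (P'.card : ℝ) * Real.log ℓ ≤ 2 * δ * ℓ := by
    have h1 : (P'.card : ℝ) ≤ P.card + 1 := by exact_mod_cast card_insert_le _ _
    have h2 := mul_le_mul_of_nonneg_right h1 (show 0 ≤ Real.log ℓ by linarith)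
    linarith
  obtain ⟨n1, n2⟩ := num_sum (k := k) (r := P'.card) hk (δ := δ) hδ hℓ2 hℓ1 hC0.le
    hℓC hM0 hMle hr
  have sc := sums_casek k hk hε0 hε1 P' hP'p ⟨2, mem_insert_self _ _⟩ S2 B hne hB
    (fun h => hS0 (hS2S h)) (fun x hx y hy => hSs x (hS2S hx) y (hS2S hy)) M hM (fun x hx => by
      have hx' := mem_filter.1 hx
      refine n1.trans ?_
      have h1 : Real.exp (4 * δ * ℓ) ≤ Real.exp (γ * ℓ) :=
        Real.exp_le_exp.2 (mul_le_mul_of_nonneg_right h4δ hℓ0.le)
      refine h1.trans (hx'.2.trans ?_)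
      have h2 : cl S f x ⊆ S2.filter fun y => ∀ p, p ∉ P' → fa x p = fa y p := by
        intro y hy
        have hy' := mem_cl.1 hy
        rw [mem_filter]
        refine ⟨mem_filter.2 ⟨hy'.1, ?_⟩, ?_⟩
        · rw [fc_congr hy'.2]
          exact hx'.2
        · intro p hp
          have hpP : p ∉ P := fun h => hp (mem_insert_of_mem h)
          by_cases hp2 : p ∈ T
          · exact ((mk_X_eq_iff.1 hy'.2) p hp2).symm
          · rw [hT p hpP hp2 y hy'.1, hT p hpP hp2 x (hS2S hx)]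
      exact_mod_cast card_le_card h2)
  have hB0 : (0 : ℝ) < B.card := by exact_mod_cast card_pos.2 hB
  have hskn : (sk k S2).Nonempty := by
    obtain ⟨a, ha⟩ := hne
    exact ⟨_, mem_image_of_mem _ (Fintype.mem_piFinset.2 fun _ => ha)⟩
  have hsum0 : (0 : ℝ) < (sk k S2 + B).card := by exact_mod_cast card_pos.2 (hskn.add hB)
  have h1 : ((S2.card : ℝ) ^ k * B.card) ^ (1 - ε') ≤ Real.exp (16 * k * δ * ℓ) *
      (sk k S2 + B).card := sc.trans (mul_le_mul_of_nonneg_right n2 hsum0.le)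
  have hS2k : (0 : ℝ) < (S2.card : ℝ) ^ k := pow_pos (by linarith) k
  have hpos : (0 : ℝ) < (S2.card : ℝ) ^ k * B.card := mul_pos hS2k hB0
  have h2 := Real.log_le_log (Real.rpow_pos_of_pos hpos _) h1
  rw [Real.log_rpow hpos, Real.log_mul hS2k.ne' hB0.ne', Real.log_pow,
    Real.log_mul (Real.exp_pos _).ne' hsum0.ne', Real.log_exp] at h2
  have h3 : ((sk k S2 + B).card : ℝ) ≤ (sk k S + B).card := by
    exact_mod_cast card_le_card (add_subset_add_right (sk_mono hS2S))
  have h4 := Real.log_le_log hsum0 h3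
  linarith

lemma pk_succ (k : ℕ) (R : Finset ℤ) : pk (k + 1) R = pk k R * R := by
  unfold pk
  ext x
  rw [mem_image, mem_mul]
  constructor
  · rintro ⟨s, hs, rfl⟩
    rw [Fintype.mem_piFinset] at hs
    refine ⟨_, mem_image_of_mem _ (Fintype.mem_piFinset.2 fun i => hs i.castSucc), _,
      hs (Fin.last k), ?_⟩
    rw [Fin.prod_univ_castSucc]
  · rintro ⟨y, hy, z, hz, rfl⟩
    rw [mem_image] at hy
    obtain ⟨s, hs, rfl⟩ := hy
    refine ⟨Fin.snoc s z, Fintype.mem_piFinset.2 fun i => ?_, ?_⟩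
    · refine Fin.lastCases ?_ (fun j => ?_) i
      · rw [Fin.snoc_last]
        exact hz
      · rw [Fin.snoc_castSucc]
        exact Fintype.mem_piFinset.1 hs j
    · rw [Fin.prod_univ_castSucc]
      simp only [Fin.snoc_castSucc, Fin.snoc_last]

lemma pk_zero (R : Finset ℤ) : pk 0 R = {1} := by
  unfold pk
  ext x
  rw [mem_image, mem_singleton]
  constructor
  · rintro ⟨s, -, rfl⟩
    simp
  · rintro rfl
    exact ⟨fun i => i.elim0, Fintype.mem_piFinset.2 fun i => i.elim0, by simp⟩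

lemma zero_notMem_mul {A B : Finset ℤ} (hA : (0 : ℤ) ∉ A) (hB : (0 : ℤ) ∉ B) :
    (0 : ℤ) ∉ A * B := by
  intro h
  obtain ⟨a, ha, b, hb, hab⟩ := mem_mul.1 h
  rcases mul_eq_zero.1 hab with h | h
  · exact hA (h ▸ ha)
  · exact hB (h ▸ hb)

lemma zero_notMem_pk (k : ℕ) {R : Finset ℤ} (hR : (0 : ℤ) ∉ R) : (0 : ℤ) ∉ pk k R := by
  induction k with
  | zero => rw [pk_zero]; simp
  | succ k ih => rw [pk_succ]; exact zero_notMem_mul ih hR

/-- the iterated product inequality -/
lemma prod_iter (A R : Finset ℤ) (hA : A.Nonempty) (hR : R.Nonempty) (hA0 : (0 : ℤ) ∉ A)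
    (hR0 : (0 : ℤ) ∉ R) (T : Finset ℕ) (e : ℕ → ℕ) {L : ℝ} (hL : 1 < L) (hl : 9 ≤ Real.log L)
    (hT : ∀ p ∈ T, L * ((R.filter fun b => fa b p ≠ e p).card : ℝ) ≤ R.card) (k : ℕ)
    (hk : (k : ℝ) * (9 / Real.log L) ≤ 1) :
    (1 - k * (9 / Real.log L)) * (Real.log A.card +
      k * max 0 (h R (Y359.PE.mk T (X e)) - Real.log 2)) ≤ Real.log (A * pk k R).card := by
  induction k with
  | zero =>
    rw [pk_zero, singleton_one, mul_one]
    simp
  | succ k ih =>
    set γ := 9 / Real.log L with hγ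
    have hγ0 : 0 ≤ γ := by
      rw [hγ]
      positivity
    have hγ1 : γ ≤ 1 := by
      rw [hγ, div_le_one (by linarith)]
      exact hl
    push_cast at hk ⊢
    have hk' : (k : ℝ) * γ ≤ 1 := by nlinarith
    have IH := ih hk'
    have hApn : (A * pk k R).Nonempty := hA.mul (pk_nonempty hR)
    have hAp0 : (0 : ℤ) ∉ A * pk k R := zero_notMem_mul hA0 (zero_notMem_pk k hR0)
    have main := prod_arb (A * pk k R) R hApn hR hAp0 hR0 T e hL hl hT
    rw [image_mul_eq', mul_assoc, ← pk_succ, ← hγ] at main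
    set u := h R (Y359.PE.mk T (X e)) - Real.log 2 with hu
    have hA1 : (1 : ℝ) ≤ A.card := by exact_mod_cast card_pos.2 hA
    have hlA : 0 ≤ Real.log A.card := Real.log_nonneg hA1
    have hp1 : (1 : ℝ) ≤ (A * pk k R).card := by exact_mod_cast card_pos.2 hApn
    have hlp : 0 ≤ Real.log (A * pk k R).card := Real.log_nonneg hp1
    have hmono : Real.log (A * pk k R).card ≤ Real.log (A * pk (k + 1) R).card := by
      refine Real.log_le_log (by linarith) ?_
      obtain ⟨r, hr⟩ := hR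
      have hr0 : r ≠ 0 := fun h => hR0 (h ▸ hr)
      have : (A * pk k R).card ≤ (A * pk (k + 1) R).card := by
        rw [pk_succ, ← mul_assoc]
        exact card_le_card_of_injOn (fun x => x * r) (fun x hx => mul_mem_mul hx hr)
          fun a _ b _ hab => mul_right_cancel₀ hr0 hab
      exact_mod_cast this
    have hmain : (1 - γ) * (Real.log (A * pk k R).card + max 0 u) ≤
        Real.log (A * pk (k + 1) R).card := by
      rcases le_total u 0 with hu0 | hu0
      · rw [max_eq_left hu0, add_zero]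
        refine le_trans ?_ hmono
        exact mul_le_of_le_one_left hlp (by linarith)
      · rw [max_eq_right hu0, hu]
        have e1 : Real.log (A * pk k R).card + (h R (Y359.PE.mk T (X e)) - Real.log 2) =
          Real.log (A * pk k R).card - Real.log 2 + h R (Y359.PE.mk T (X e)) := by ring
        rw [e1]
        exact main
    refine le_trans ?_ hmain
    set v := max 0 u with hv
    have hv0 : 0 ≤ v := le_max_left _ _
    set Y := Real.log A.card + (k : ℝ) * v with hY
    have hY0 : 0 ≤ Y := by positivity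
    have s1 : (1 - (k : ℝ) * γ) * (Y + v) ≤ Real.log (A * pk k R).card + v := by
      have : (1 - (k : ℝ) * γ) * v ≤ v := mul_le_of_le_one_left hv0 (by
        have : 0 ≤ (k : ℝ) * γ := by positivity
        linarith)
      linarith
    have s2 := mul_le_mul_of_nonneg_left s1 (show 0 ≤ 1 - γ by linarith)
    refine le_trans ?_ s2
    have e2 : Real.log (A.card : ℝ) + ((k : ℝ) + 1) * v = Y + v := by rw [hY]; ring
    rw [e2, ← mul_assoc]
    refine mul_le_mul_of_nonneg_right ?_ (by linarith)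
    have : 0 ≤ (k : ℝ) * γ * γ := by positivity
    nlinarith

/-- **An arbitrary set `A` and `k` times a set `B` with few popular primes.** -/
theorem arb_dichk (k : ℕ) (hk : 1 ≤ k) (ε : ℝ) (hε : 0 < ε) (hε1 : ε ≤ 1) :
    ∃ L δ c : ℝ, 1 ≤ L ∧ 0 < δ ∧ 0 < c ∧ ∀ (A B : Finset ℤ) (P : Finset ℕ),
      (∃ a ∈ A, a ≠ 0) → B.Nonempty → (∀ p ∈ P, p.Prime) →
      (P.card : ℝ) * Real.log (Real.log B.card) ≤ δ * Real.log B.card →
      (∀ p : ℕ, p.Prime → p ∉ P →
        ∃ e : ℕ, L * ((B.filter fun b => b ≠ 0 ∧ fa b p ≠ e).card : ℝ) ≤ B.card) →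
      c * ((A.card : ℝ) * (B.card : ℝ) ^ k) ^ (1 - ε) ≤
        max ((A + sk k B).card : ℝ) ((A * pk k B).card : ℝ) := by
  have hkr : (1 : ℝ) ≤ k := by exact_mod_cast hk
  have hk0 : (0 : ℝ) < k := by linarith
  set γ : ℝ := ε / (8 * k) with hγ
  have hγ0 : 0 < γ := by positivity
  have hkγ : k * γ = ε / 8 := by
    rw [hγ]
    field_simp
  have hγ8 : γ ≤ 1 / 8 := by nlinarith
  set δ : ℝ := ε / (64 * k) with hδ
  have hδ0 : 0 < δ := by positivity
  have hkδ : k * δ = ε / 64 := by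
    rw [hδ]
    field_simp
  have hδ64 : δ ≤ 1 / 64 := by nlinarith
  have h4δ : 4 * δ ≤ γ := by nlinarith
  set ε' : ℝ := ε / 4 with hε'
  have hε'0 : 0 < ε' := by positivity
  have hε'1 : ε' ≤ 1 := by rw [hε']; linarith
  set C : ℝ := 4 * k / ε' * Real.exp (6 * k / ε') with hC
  set Λ : ℝ := Real.exp (9 / γ) with hΛ
  have hlogΛ : Real.log Λ = 9 / γ := by rw [hΛ, Real.log_exp]
  have h9γ : 9 ≤ 9 / γ := by
    rw [le_div_iff₀ hγ0]
    linarith
  have hΛ1 : 1 < Λ := by
    rw [hΛ]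
    exact Real.one_lt_exp_iff.2 (by linarith)
  have hΛγ : 9 / Real.log Λ = γ := by
    rw [hlogΛ]
    field_simp
  -- large sets
  have hlim : Filter.Tendsto (fun n : ℕ => Real.log (n : ℝ)) Filter.atTop Filter.atTop :=
    Real.tendsto_log_atTop.comp tendsto_natCast_atTop_atTop
  have hev : ∀ᶠ ℓ : ℝ in Filter.atTop, 2 ≤ ℓ ∧ 2 * C ≤ ℓ ∧ 1 ≤ Real.log ℓ ∧
      Real.log ℓ ≤ δ * ℓ := by
    refine (Filter.eventually_ge_atTop 2).and ((Filter.eventually_ge_atTop (2 * C)).and
      ((Real.tendsto_log_atTop.eventually_ge_atTop 1).and ?_))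
    have h1 := Real.isLittleO_log_id_atTop.bound hδ0
    filter_upwards [h1, Filter.eventually_ge_atTop 1] with x hx hx1
    rw [Real.norm_eq_abs, Real.norm_eq_abs, abs_of_nonneg (Real.log_nonneg hx1), id,
      abs_of_nonneg (by linarith)] at hx
    exact hx
  obtain ⟨N₀, hN₀⟩ := (hlim.eventually hev).exists_forall_of_atTop
  set N₁ : ℕ := max N₀ 3 with hN₁
  have hN₁3 : 3 ≤ N₁ := le_max_right _ _
  have hN₁r : (3 : ℝ) ≤ N₁ := by exact_mod_cast hN₁3
  refine ⟨3 * Λ, δ, (γ / (12 * N₁)) ^ k, by linarith, hδ0, by positivity, ?_⟩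
  intro A B P hA0 hB hP hPB hpop
  obtain ⟨a₀, ha₀, ha₀0⟩ := hA0
  have hA : A.Nonempty := ⟨a₀, ha₀⟩
  set A' := A.erase 0 with hA'
  have hA'n : A'.Nonempty := ⟨a₀, mem_erase.2 ⟨ha₀0, ha₀⟩⟩
  have hA'0 : (0 : ℤ) ∉ A' := notMem_erase 0 A
  have hA'A : A' ⊆ A := erase_subset _ _
  have hA'c : (A.card : ℝ) ≤ 2 * A'.card := by
    have h3 : 1 ≤ A'.card := card_pos.2 hA'n
    have h4 : A.card ≤ A'.card + 1 := by
      have h5 : A.card - 1 ≤ A'.card := pred_card_le_card_erase
      omega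
    have : A.card ≤ 2 * A'.card := by omega
    exact_mod_cast this
  have hA1 : (1 : ℝ) ≤ A.card := by exact_mod_cast card_pos.2 hA
  have hB1 : (1 : ℝ) ≤ B.card := by exact_mod_cast card_pos.2 hB
  have hBk1 : (1 : ℝ) ≤ (B.card : ℝ) ^ k := one_le_pow₀ hB1
  have hAB1 : (1 : ℝ) ≤ (A.card : ℝ) * (B.card : ℝ) ^ k := by nlinarith only [hA1, hBk1]
  have hpow1 : ((A.card : ℝ) * (B.card : ℝ) ^ k) ^ (1 - ε) ≤
      (A.card : ℝ) * (B.card : ℝ) ^ k := by
    have := Real.rpow_le_rpow_of_exponent_le hAB1 (show 1 - ε ≤ 1 by linarith)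
    rwa [Real.rpow_one] at this
  have hc0 : 0 ≤ (γ / (12 * (N₁ : ℝ))) ^ k := by positivity
  have hsB : (sk k B).Nonempty := by
    obtain ⟨a, ha⟩ := hB
    exact ⟨_, mem_image_of_mem _ (Fintype.mem_piFinset.2 fun _ => ha)⟩
  have hAle : (A.card : ℝ) ≤ (A + sk k B).card := by
    exact_mod_cast card_le_card_add_right hsB
  rcases lt_or_ge B.card N₁ with hsmB | hlB
  · have h3 : (B.card : ℝ) ≤ N₁ := by exact_mod_cast hsmB.le
    refine le_trans ?_ (le_max_left _ _)
    have hcN : (γ / (12 * (N₁ : ℝ)) * B.card) ^ k ≤ 1 := by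
      refine pow_le_one₀ (by positivity) ?_
      rw [div_mul_eq_mul_div, div_le_one (by positivity)]
      nlinarith only [h3, hγ8, hγ0, hN₁r, hB1]
    calc (γ / (12 * (N₁ : ℝ))) ^ k * ((A.card : ℝ) * (B.card : ℝ) ^ k) ^ (1 - ε)
        ≤ (γ / (12 * (N₁ : ℝ))) ^ k * ((A.card : ℝ) * (B.card : ℝ) ^ k) :=
          mul_le_mul_of_nonneg_left hpow1 hc0
      _ = (γ / (12 * (N₁ : ℝ)) * B.card) ^ k * A.card := by rw [mul_pow]; ring
      _ ≤ 1 * A.card := mul_le_mul_of_nonneg_right hcN (by positivity)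
      _ ≤ (A + sk k B).card := by rw [one_mul]; exact hAle
  -- the second set is large
  obtain ⟨hm2, hmC, hm1, hmδ⟩ := hN₀ B.card ((le_max_left _ _).trans hlB)
  set ℓ := Real.log (A.card : ℝ) with hℓ
  set m := Real.log (B.card : ℝ) with hm
  have hℓ0 : 0 ≤ ℓ := Real.log_nonneg hA1
  have hm0 : 0 ≤ m := by linarith
  obtain ⟨R, hRB, hR0, hRs, hRc⟩ := sign_part B (hN₁3.trans hlB)
  have hRc' : (B.card : ℝ) ≤ 3 * R.card := by exact_mod_cast hRc
  have hRp : (0 : ℝ) < R.card := by linarith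
  have hRn : R.Nonempty := card_pos.1 (by exact_mod_cast hRp)
  choose! e he using hpop
  set T := pr R \ P with hT
  have popR : ∀ p ∈ T, Λ * ((R.filter fun a => fa a p ≠ e p).card : ℝ) ≤ R.card := by
    intro p hp
    rw [hT, mem_sdiff] at hp
    have h1 := he p (prime_of_mem_pr hp.1) hp.2
    have h2 : ((R.filter fun a => fa a p ≠ e p).card : ℝ) ≤
        ((B.filter fun b => b ≠ 0 ∧ fa b p ≠ e p).card : ℝ) := by
      have : (R.filter fun a => fa a p ≠ e p) ⊆ B.filter fun b => b ≠ 0 ∧ fa b p ≠ e p := by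
        intro a ha
        rw [mem_filter] at ha ⊢
        exact ⟨hRB ha.1, fun h => hR0 (h ▸ ha.1), ha.2⟩
      exact_mod_cast card_le_card this
    have h3 := mul_le_mul_of_nonneg_left h2 (show 0 ≤ 3 * Λ by linarith)
    linarith
  have hTR : ∀ p, p ∉ P → p ∉ T → ∀ a ∈ R, fa a p = 0 := by
    intro p hp hpT a ha
    exact fa_eq_zero ha fun h => hpT (mem_sdiff.2 ⟨h, hp⟩)
  have hcγ : (γ / (12 * (N₁ : ℝ))) ^ k ≤ (γ / 12) ^ k :=
    pow_le_pow_left₀ (by positivity)
      (div_le_div_of_nonneg_left hγ0.le (by norm_num) (by linarith only [hN₁r])) k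
  have hBk0 : (0 : ℝ) < (B.card : ℝ) ^ k := by linarith
  have hAB0 : (0 : ℝ) < (A.card : ℝ) * (B.card : ℝ) ^ k := by linarith
  have hgoal : ∀ Z : ℝ, 0 < Z → (1 - ε) * (ℓ + k * m) + k * Real.log (γ / 12) ≤ Real.log Z →
      (γ / (12 * (N₁ : ℝ))) ^ k * ((A.card : ℝ) * (B.card : ℝ) ^ k) ^ (1 - ε) ≤ Z := by
    intro Z hZ h
    have h8 : (γ / (12 * (N₁ : ℝ))) ^ k * ((A.card : ℝ) * (B.card : ℝ) ^ k) ^ (1 - ε) ≤
        (γ / 12) ^ k * ((A.card : ℝ) * (B.card : ℝ) ^ k) ^ (1 - ε) :=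
      mul_le_mul_of_nonneg_right hcγ (by positivity)
    refine h8.trans ?_
    rw [← Real.log_le_log_iff (by positivity) hZ, Real.log_mul (by positivity)
      (Real.rpow_pos_of_pos hAB0 _).ne', Real.log_rpow hAB0, Real.log_mul (by linarith)
      hBk0.ne', Real.log_pow, Real.log_pow]
    change (k : ℝ) * Real.log (γ / 12) + (1 - ε) * (ℓ + k * m) ≤ _
    linarith
  have hg0 : Real.log (γ / 12) ≤ 0 :=
    Real.log_nonpos (by positivity) (by linarith only [hγ8])
  have hAB0' : (0 : ℝ) < (A + sk k B).card := by exact_mod_cast card_pos.2 (hA.add hsB)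
  set g := Y359.PE.mk T (X e) with hg
  set R2 := R.filter fun x => Real.exp (γ * m) ≤ (fc R g x : ℝ) with hR2
  have hkℓ : 0 ≤ (k : ℝ) * m := by positivity
  rcases lt_or_ge (R2.card : ℝ) (γ * R.card) with hcR | hcR
  swap
  · -- many sums
    have hR2n : R2.Nonempty := card_pos.1 (by
      have : (0 : ℝ) < R2.card := lt_of_lt_of_le (by positivity) hcR
      exact_mod_cast this)
    have hlogR : Real.log R.card ≤ Real.log B.card := by
      refine Real.log_le_log hRp ?_
      exact_mod_cast card_le_card hRB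
    have ls := long_sidek (C := C) k hk hε'0 hε'1 hm2 hm1 hC hmC
      (show 2 * δ ≤ 1 by linarith) h4δ P hP (by
        have : (P.card : ℝ) * Real.log m ≤ δ * m := hPB
        linarith) R hR0 hRs hlogR T e hTR hR2n A hA
    have hsub : ((sk k R + A).card : ℝ) ≤ (A + sk k B).card := by
      rw [add_comm A]
      exact_mod_cast card_le_card (add_subset_add_right (sk_mono hRB))
    have hskR : (sk k R).Nonempty := by
      obtain ⟨a, ha⟩ := hRn
      exact ⟨_, mem_image_of_mem _ (Fintype.mem_piFinset.2 fun _ => ha)⟩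
    have hsub2 := Real.log_le_log (by exact_mod_cast card_pos.2 (hskR.add hA)) hsub
    have hlow : m + Real.log (γ / 12) ≤ Real.log R2.card := by
      have hB0 : (0 : ℝ) < B.card := by linarith
      rw [hm, ← Real.log_mul hB0.ne' (by positivity)]
      refine Real.log_le_log (by positivity) ?_
      have h3 : γ * (B.card / 3) ≤ γ * R.card :=
        mul_le_mul_of_nonneg_left (by linarith) hγ0.le
      nlinarith only [h3, hcR, mul_pos hγ0 hB0]
    refine (hgoal _ hAB0' ?_).trans (le_max_left _ _)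
    have h1 : (1 - ε') * (k * Real.log R2.card + ℓ) ≤
        16 * k * δ * m + Real.log (A + sk k B).card := by
      refine ls.trans ?_
      linarith
    have h30 : (k : ℝ) * (m + Real.log (γ / 12)) ≤ k * Real.log R2.card :=
      mul_le_mul_of_nonneg_left hlow hk0.le
    have h3 : (1 - ε') * (k * (m + Real.log (γ / 12)) + ℓ) ≤
        (1 - ε') * (k * Real.log R2.card + ℓ) :=
      mul_le_mul_of_nonneg_left (by linarith) (by linarith)
    have h4 : 16 * k * δ * m = ε / 4 * m := by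
      have : 16 * (k : ℝ) * δ = 16 * (k * δ) := by ring
      rw [this, hkδ]
      ring
    have h5 : (1 - ε') * (k * (m + Real.log (γ / 12)) + ℓ) =
        (ℓ + k * m) - ε / 4 * (ℓ + k * m) + k * Real.log (γ / 12) -
          ε / 4 * (k * Real.log (γ / 12)) := by
      rw [hε']; ring
    have h60 : (k : ℝ) * Real.log (γ / 12) ≤ 0 := mul_nonpos_of_nonneg_of_nonpos hk0.le hg0
    have h6 : ε / 4 * (k * Real.log (γ / 12)) ≤ 0 :=
      mul_nonpos_of_nonneg_of_nonpos (by linarith) h60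
    have h7 : 0 ≤ ε * ℓ := mul_nonneg hε.le hℓ0
    have h8 : 0 ≤ ε * (k * m) := mul_nonneg hε.le hkℓ
    have h9 : ε * m ≤ ε * (k * m) := by
      refine mul_le_mul_of_nonneg_left ?_ hε.le
      nlinarith only [hkr, hm0]
    linarith only [h1, h3, h4, h5, h6, h7, h8, h9]
  · -- many products
    have hlog3 : Real.log 3 ≤ 1.1 := by
      rw [Real.log_le_iff_le_exp (by norm_num)]
      have h10 : (1.1 : ℝ) = 1 + 0.1 := by norm_num
      rw [h10, Real.exp_add]
      have h11 := Real.exp_one_gt_d9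
      have h12 : (1.105 : ℝ) ≤ Real.exp 0.1 := by
        have := Real.quadratic_le_exp_of_nonneg (show (0 : ℝ) ≤ 0.1 by norm_num)
        norm_num at this ⊢
        linarith
      nlinarith only [h11, h12]
    have hlog30 : 0 ≤ Real.log 3 := Real.log_nonneg (by norm_num)
    have hlog20 : 0 ≤ Real.log 2 := Real.log_nonneg (by norm_num)
    have sR : (1 - γ) * ((1 - γ) * m - Real.log 3) ≤ h R g := by
      have hB0 : (0 : ℝ) < B.card := by linarith
      have h12 : ((R.filter fun x => Real.exp (γ * m) ≤ (fc R g x : ℝ)).card : ℝ) +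
          ((R.filter fun x => ¬ Real.exp (γ * m) ≤ (fc R g x : ℝ)).card : ℝ) = R.card := by
        exact_mod_cast card_filter_add_card_filter_not (s := R)
          (fun x => Real.exp (γ * m) ≤ (fc R g x : ℝ))
      have hh := h_ge_short R (R.filter fun x => ¬ Real.exp (γ * m) ≤
        (fc R g x : ℝ)) hRn g (filter_subset _ _) (F := Real.exp (γ * m))
        (fun x hx => (not_le.1 (mem_filter.1 hx).2).le)
      rw [Real.log_exp] at hh
      have hq : 1 - γ ≤ ((R.filter fun x => ¬ Real.exp (γ * m) ≤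
          (fc R g x : ℝ)).card : ℝ) / R.card := by
        rw [le_div_iff₀ hRp]
        linarith
      have hlogR : m - Real.log 3 ≤ Real.log R.card := by
        rw [hm, ← Real.log_div hB0.ne' (by norm_num)]
        exact Real.log_le_log (by positivity) (by linarith)
      have hpos : 0 ≤ (1 - γ) * m - Real.log 3 := by nlinarith only [hγ8, hm2, hlog3]
      refine le_trans ?_ hh
      exact mul_le_mul hq (by linarith) hpos (by positivity)
    have main := prod_iter A' R hA'n hRn hA'0 hR0 T e hΛ1 (by rw [hlogΛ]; exact h9γ) popR k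
      (by rw [hΛγ, hkγ]; linarith)
    rw [hΛγ, hkγ] at main
    have hpkR : (pk k R).Nonempty := pk_nonempty hRn
    have hSR0 : (0 : ℝ) < (A' * pk k R).card := by exact_mod_cast card_pos.2 (hA'n.mul hpkR)
    have hsub : ((A' * pk k R).card : ℝ) ≤ (A * pk k B).card := by
      exact_mod_cast card_le_card (mul_subset_mul hA'A (pk_mono hRB))
    refine (hgoal _ hSR0 ?_).trans (hsub.trans (le_max_right _ _))
    refine le_trans ?_ main
    have hlA' : ℓ - Real.log 2 ≤ Real.log A'.card := by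
      have hA'0' : (0 : ℝ) < A'.card := by exact_mod_cast card_pos.2 hA'n
      rw [hℓ, ← Real.log_div (by linarith) (by norm_num)]
      exact Real.log_le_log (by positivity) (by linarith)
    set HR := h R g with hHR
    have hmax : HR - Real.log 2 ≤ max 0 (HR - Real.log 2) := le_max_right _ _
    have h0 : (k : ℝ) * ((1 - γ) * ((1 - γ) * m - Real.log 3) - Real.log 2) ≤
        k * max 0 (HR - Real.log 2) :=
      mul_le_mul_of_nonneg_left (by linarith) hk0.le
    have h1 : (1 - ε / 8) * (ℓ - Real.log 2 +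
        k * ((1 - γ) * ((1 - γ) * m - Real.log 3) - Real.log 2)) ≤
        (1 - ε / 8) * (Real.log A'.card + k * max 0 (HR - Real.log 2)) :=
      mul_le_mul_of_nonneg_left (by linarith) (by linarith)
    refine le_trans ?_ h1
    have h3 : 1 - 2 * γ ≤ (1 - γ) * (1 - γ) := by nlinarith only [sq_nonneg γ]
    have h5 : (k : ℝ) * m - ε / 4 * m ≤ k * ((1 - γ) * (1 - γ) * m) := by
      have e1 : (k : ℝ) * m - ε / 4 * m = k * ((1 - 2 * γ) * m) := by
        have : ε / 4 = 2 * (k * γ) := by rw [hkγ]; ring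
        rw [this]
        ring
      rw [e1]
      exact mul_le_mul_of_nonneg_left (mul_le_mul_of_nonneg_right h3 hm0) hk0.le
    have h6 : (1 - γ) * Real.log 3 ≤ Real.log 3 := mul_le_of_le_one_left hlog30 (by linarith)
    have h7 : (k : ℝ) * ((1 - γ) * Real.log 3) ≤ k * Real.log 3 :=
      mul_le_mul_of_nonneg_left h6 hk0.le
    have h8 : Real.log (γ / 12) ≤ -(2 * Real.log 2) - Real.log 3 := by
      have h9 : Real.log (1 / 12) = -(2 * Real.log 2) - Real.log 3 := by
        rw [one_div, Real.log_inv, show (12 : ℝ) = 2 ^ 2 * 3 by norm_num,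
          Real.log_mul (by norm_num) (by norm_num), Real.log_pow]
        push_cast
        ring
      rw [← h9]
      exact Real.log_le_log (by positivity) (by linarith only [hγ8])
    have h9 : (k : ℝ) * Real.log (γ / 12) ≤ k * (-(2 * Real.log 2) - Real.log 3) :=
      mul_le_mul_of_nonneg_left h8 hk0.le
    have h10 : Real.log 2 ≤ k * Real.log 2 := le_mul_of_one_le_left hlog20 hkr
    have h11 : ε * m ≤ ε * (k * m) := by
      refine mul_le_mul_of_nonneg_left ?_ hε.le
      nlinarith only [hkr, hm0]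
    have h12 : 0 ≤ ε * ℓ := mul_nonneg hε.le hℓ0
    -- lower bound for the bracket
    have h13 : ℓ + k * m - ε / 4 * m - 2 * (k * Real.log 2) - k * Real.log 3 ≤
        ℓ - Real.log 2 + k * ((1 - γ) * ((1 - γ) * m - Real.log 3) - Real.log 2) := by
      have e2 : (k : ℝ) * ((1 - γ) * ((1 - γ) * m - Real.log 3) - Real.log 2) =
          k * ((1 - γ) * (1 - γ) * m) - k * ((1 - γ) * Real.log 3) - k * Real.log 2 := by ring
      rw [e2]
      linarith
    have h14 := mul_le_mul_of_nonneg_left h13 (show 0 ≤ 1 - ε / 8 by linarith)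
    refine le_trans ?_ h14
    have h15 : 0 ≤ ε * (2 * (k * Real.log 2) + k * Real.log 3) := by positivity
    have h16 : 0 ≤ ε * (ε * m) := by positivity
    nlinarith only [h9, h11, h12, h15, h16, mul_nonneg hε.le hm0]

end Pool.Agent.Q247.OK
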