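import Mathlib
import Pool.Agent.Q247.OS.Fin

/-!
# Products of an arbitrary set with `k` shifted sets
-/

set_option autoImplicit false

namespace Pool.Agent.Q247.OK

open Finset Polynomial Pool.Agent.Q247.OS
open scoped Classical Pointwise

/-- the set of the products `∏ f_i (s_i + t_i)` -/
def Pk {k : ℕ} (f : Fin k → ℤ[X]) (S : Fin k → Finset ℤ) (t : Fin k → ℤ) : Finset ℤ :=
  (Fintype.piFinset S).image fun s => ∏ i, (f i).eval (s i + t i)

lemma Pk_zero (f : Fin 0 → ℤ[X]) (S : Fin 0 → Finset ℤ) (t : Fin 0 → ℤ) : Pk f S t = {1} := by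
  unfold Pk
  ext x
  rw [mem_image, mem_singleton]
  constructor
  · rintro ⟨s, -, rfl⟩
    simp
  · rintro rfl
    exact ⟨fun i => i.elim0, Fintype.mem_piFinset.2 fun i => i.elim0, by simp⟩

lemma Pk_succ {k : ℕ} (f : Fin (k + 1) → ℤ[X]) (S : Fin (k + 1) → Finset ℤ)
    (t : Fin (k + 1) → ℤ) :
    Pk f S t = Pk (fun i => f i.castSucc) (fun i => S i.castSucc) (fun i => t i.castSucc) *
      (S (Fin.last k)).image fun s => (f (Fin.last k)).eval (s + t (Fin.last k)) := by
  unfold Pk
  ext x
  rw [mem_image, mem_mul]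
  constructor
  · rintro ⟨s, hs, rfl⟩
    rw [Fintype.mem_piFinset] at hs
    refine ⟨_, mem_image_of_mem _ (Fintype.mem_piFinset.2 fun i => hs i.castSucc), _,
      mem_image_of_mem _ (hs (Fin.last k)), ?_⟩
    rw [Fin.prod_univ_castSucc]
  · rintro ⟨y, hy, z, hz, rfl⟩
    rw [mem_image] at hy hz
    obtain ⟨s, hs, rfl⟩ := hy
    obtain ⟨u, hu, rfl⟩ := hz
    refine ⟨Fin.snoc s u, Fintype.mem_piFinset.2 fun i => ?_, ?_⟩
    · refine Fin.lastCases ?_ (fun j => ?_) i
      · rw [Fin.snoc_last]
        exact hu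
      · rw [Fin.snoc_castSucc]
        exact Fintype.mem_piFinset.1 hs j
    · rw [Fin.prod_univ_castSucc]
      simp only [Fin.snoc_castSucc, Fin.snoc_last]

/-- the bad tuples -/
noncomputable def bad {k : ℕ} (c e : ℝ) (T : Finset ℤ) (f : Fin k → ℤ[X]) (A : Finset ℤ)
    (S : Fin k → Finset ℤ) : Finset (Fin k → ℤ) :=
  (Fintype.piFinset fun _ : Fin k => T).filter fun t =>
    (∀ x ∈ A * Pk f S t, x = 0) ∨
    ((A * Pk f S t).card : ℝ) < c * ((A.card : ℝ) * ∏ i, ((S i).card : ℝ)) ^ e

lemma zero_shifts (f : ℤ[X]) (hf : f ≠ 0) (S T : Finset ℤ) (hS : S.Nonempty) :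
    (T.filter fun t => ∀ s ∈ S, f.eval (s + t) = 0).card ≤ f.natDegree := by
  obtain ⟨s, hs⟩ := hS
  refine le_trans ?_ (card_roots' f)
  refine le_trans (card_le_card_of_injOn (fun t => s + t) ?_ ?_) (Multiset.toFinset_card_le _)
  · intro t ht
    rw [mem_coe, mem_filter] at ht
    rw [mem_coe, Multiset.mem_toFinset, mem_roots hf]
    exact ht.2 s hs
  · intro a _ b _ hab
    exact add_left_cancel hab

theorem iter (d : ℕ) (hd : 1 ≤ d) (η : ℝ) (hη : 0 < η) (hη1 : η ≤ 1) (N : ℕ) (k : ℕ) :
    ∃ c : ℝ, 0 < c ∧ c ≤ 1 ∧ ∀ T ⊆ Icc (-(N : ℤ)) N, ∀ (f : Fin k → ℤ[X]) (A : Finset ℤ)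
      (S : Fin k → Finset ℤ), (∀ i, (f i).IsPrimitive) → (∀ i, 1 ≤ (f i).natDegree) →
      (∀ i, (f i).natDegree ≤ d) → (∃ a ∈ A, a ≠ 0) → (∀ i, (S i).Nonempty) →
      (T.card : ℝ) * (bad c ((1 - η) ^ k) T f A S).card ≤
        k * (3 * d * Real.exp (9 / η)) * (T.card : ℝ) ^ k := by
  induction k with
  | zero =>
    refine ⟨1, one_pos, le_rfl, fun T _ f A S _ _ _ hA _ => ?_⟩
    have : bad 1 ((1 - η) ^ 0) T f A S = ∅ := by
      unfold bad
      rw [filter_eq_empty_iff]
      intro t _ h
      rw [Pk_zero, singleton_one, mul_one] at h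
      rcases h with h | h
      · obtain ⟨a, ha, ha0⟩ := hA
        exact ha0 (h a ha)
      · simp at h
    rw [this]
    simp
  | succ k ih =>
    obtain ⟨c₁, hc₁, hc₁1, h₁⟩ := ih
    obtain ⟨c₂, hc₂, hc₂1, h₂⟩ := shifts_all d hd η hη hη1 N
    refine ⟨c₂ * c₁, by positivity, mul_le_one₀ hc₂1 hc₁.le hc₁1,
      fun T hT f A S hf hf1 hfd hA hS => ?_⟩
    set f' : Fin k → ℤ[X] := fun i => f i.castSucc with hf'
    set S' : Fin k → Finset ℤ := fun i => S i.castSucc with hS'
    set g := f (Fin.last k) with hg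
    set R := S (Fin.last k) with hR
    set M : ℝ := 3 * d * Real.exp (9 / η) with hM
    have hM0 : 0 ≤ M := by positivity
    have IH := h₁ T hT f' A S' (fun i => hf _) (fun i => hf1 _) (fun i => hfd _) hA fun i => hS _
    set Bk := bad c₁ ((1 - η) ^ k) T f' A S' with hBk
    -- the bad last shifts
    set L : (Fin k → ℤ) → Finset ℤ := fun t' =>
      (T.filter fun t => ((A * Pk f' S' t' * R.image fun s => g.eval (s + t)).card : ℝ) <
        c₂ * (((A * Pk f' S' t').card : ℝ) * R.card) ^ (1 - η)) ∪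
      (T.filter fun t => ∀ s ∈ R, g.eval (s + t) = 0) with hL
    have hLc : ∀ t', (∃ x ∈ A * Pk f' S' t', x ≠ 0) → ((L t').card : ℝ) ≤ M := by
      intro t' ht'
      have e1 : ((T.filter fun t => ((A * Pk f' S' t' *
          R.image fun s => g.eval (s + t)).card : ℝ) <
          c₂ * (((A * Pk f' S' t').card : ℝ) * R.card) ^ (1 - η)).card : ℝ) ≤
          2 * d * Real.exp (9 / η) := by
        refine le_trans ?_ (h₂ g (A * Pk f' S' t') R (hf _) (hf1 _) (hfd _) ht' (hS _))
        exact_mod_cast card_le_card (filter_subset_filter _ hT)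
      have e2 : ((T.filter fun t => ∀ s ∈ R, g.eval (s + t) = 0).card : ℝ) ≤ d := by
        have hg0 : g ≠ 0 := (hf (Fin.last k)).ne_zero
        have := (zero_shifts g hg0 R T (hS _)).trans (hfd _)
        exact_mod_cast this
      have e3 : ((L t').card : ℝ) ≤ 2 * d * Real.exp (9 / η) + d := by
        refine le_trans ?_ (add_le_add e1 e2)
        rw [← Nat.cast_add, Nat.cast_le, hL]
        exact card_union_le _ _
      have e4 : (1 : ℝ) ≤ Real.exp (9 / η) := Real.one_le_exp (by positivity)
      have hdr : (0 : ℝ) ≤ d := by positivity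
      rw [hM]
      nlinarith
    have hsub : bad (c₂ * c₁) ((1 - η) ^ (k + 1)) T f A S ⊆
        ((Bk ×ˢ T).image fun q : (Fin k → ℤ) × ℤ =>
          (Fin.snoc (α := fun _ => ℤ) q.1 q.2 : Fin (k + 1) → ℤ)) ∪
        (((Fintype.piFinset fun _ : Fin k => T) \ Bk).biUnion fun t' =>
          (L t').image fun x => (Fin.snoc (α := fun _ => ℤ) t' x : Fin (k + 1) → ℤ)) := by
      intro t ht
      unfold bad at ht
      rw [mem_filter, Fintype.mem_piFinset] at ht
      obtain ⟨htT, hbad⟩ := ht
      set t' : Fin k → ℤ := fun i => t i.castSucc with ht'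
      have htt : (Fin.snoc (α := fun _ => ℤ) t' (t (Fin.last k)) : Fin (k + 1) → ℤ) = t := by
        funext i
        refine Fin.lastCases ?_ (fun j => ?_) i
        · rw [Fin.snoc_last]
        · rw [Fin.snoc_castSucc]
      have ht'T : t' ∈ Fintype.piFinset fun _ : Fin k => T :=
        Fintype.mem_piFinset.2 fun i => htT _
      by_cases hB : t' ∈ Bk
      · refine mem_union_left _ (mem_image.2 ⟨(t', t (Fin.last k)), ?_, htt⟩)
        exact mem_product.2 ⟨hB, htT _⟩
      · refine mem_union_right _ (mem_biUnion.2 ⟨t', mem_sdiff.2 ⟨ht'T, hB⟩, ?_⟩)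
        refine mem_image.2 ⟨t (Fin.last k), ?_, htt⟩
        by_contra hcon
        rw [hL] at hcon
        simp only [mem_union, mem_filter, not_or, not_and, not_lt, not_forall] at hcon
        obtain ⟨hc1, hc2⟩ := hcon
        have hc1 := hc1 (htT _)
        obtain ⟨s, hs, hs0⟩ := hc2 (htT _)
        have hB' : (∃ x ∈ A * Pk f' S' t', x ≠ 0) ∧
            c₁ * ((A.card : ℝ) * ∏ i, ((S' i).card : ℝ)) ^ ((1 - η) ^ k) ≤
            ((A * Pk f' S' t').card : ℝ) := by
          rw [hBk] at hB
          unfold bad at hB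
          rw [mem_filter, not_and] at hB
          have := hB ht'T
          rw [not_or] at this
          push Not at this
          exact this
        obtain ⟨⟨x, hx, hx0⟩, hlow⟩ := hB'
        have hprod : A * Pk f S t = A * Pk f' S' t' *
            R.image fun s => g.eval (s + t (Fin.last k)) := by
          rw [Pk_succ, mul_assoc]
        rcases hbad with hz | hlt
        · have : x * g.eval (s + t (Fin.last k)) ∈ A * Pk f S t := by
            rw [hprod]
            exact mul_mem_mul hx (mem_image_of_mem _ hs)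
          have := hz _ this
          rcases mul_eq_zero.1 this with h | h
          · exact hx0 h
          · exact hs0 h
        · rw [hprod] at hlt
          refine absurd hlt (not_lt.2 (le_trans ?_ hc1))
          have hA1 : (1 : ℝ) ≤ A.card := by
            obtain ⟨a, ha, -⟩ := hA
            exact_mod_cast card_pos.2 ⟨a, ha⟩
          have hP1 : (1 : ℝ) ≤ ∏ i, ((S' i).card : ℝ) := by
            have : 1 ≤ ∏ i, (S' i).card :=
              Nat.one_le_iff_ne_zero.2 (prod_ne_zero_iff.2 fun i _ => (card_pos.2 (hS _)).ne')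
            exact_mod_cast this
          have hR1 : (1 : ℝ) ≤ R.card := by exact_mod_cast card_pos.2 (hS _)
          set X : ℝ := (A.card : ℝ) * ∏ i, ((S' i).card : ℝ) with hX
          have hX1 : 1 ≤ X := by rw [hX]; nlinarith
          have he0 : 0 ≤ 1 - η := by linarith
          have hek : 0 ≤ (1 - η) ^ k := pow_nonneg he0 k
          have hek1 : (1 - η) ^ k ≤ 1 := pow_le_one₀ he0 (by linarith)
          have hXe : 0 < X ^ ((1 - η) ^ k) := Real.rpow_pos_of_pos (by linarith) _
          have hprodS : (A.card : ℝ) * ∏ i, ((S i).card : ℝ) = X * R.card := by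
            rw [Fin.prod_univ_castSucc, ← mul_assoc]
          rw [hprodS]
          have s1 : (c₁ * X ^ ((1 - η) ^ k) * R.card) ^ (1 - η) ≤
              (((A * Pk f' S' t').card : ℝ) * R.card) ^ (1 - η) :=
            Real.rpow_le_rpow (by positivity)
              (mul_le_mul_of_nonneg_right hlow (by linarith)) he0
          have s2 : c₁ ≤ c₁ ^ (1 - η) := by
            have := Real.rpow_le_rpow_of_exponent_ge hc₁ hc₁1 (show 1 - η ≤ 1 by linarith)
            rwa [Real.rpow_one] at this
          have s3 : (R.card : ℝ) ^ ((1 - η) ^ (k + 1)) ≤ (R.card : ℝ) ^ (1 - η) := by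
            refine Real.rpow_le_rpow_of_exponent_le hR1 ?_
            rw [pow_succ]
            exact mul_le_of_le_one_left he0 hek1
          have s4 : (c₁ * X ^ ((1 - η) ^ k) * R.card) ^ (1 - η) =
              c₁ ^ (1 - η) * X ^ ((1 - η) ^ (k + 1)) * (R.card : ℝ) ^ (1 - η) := by
            rw [Real.mul_rpow (by positivity) (by linarith), Real.mul_rpow hc₁.le hXe.le,
              ← Real.rpow_mul (by linarith), ← pow_succ]
          have s5 : c₁ * (X * R.card) ^ ((1 - η) ^ (k + 1)) ≤
              (c₁ * X ^ ((1 - η) ^ k) * R.card) ^ (1 - η) := by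
            rw [s4, Real.mul_rpow (by linarith) (by linarith), ← mul_assoc]
            have hX' : 0 ≤ X ^ ((1 - η) ^ (k + 1)) := Real.rpow_nonneg (by linarith) _
            refine mul_le_mul (mul_le_mul_of_nonneg_right s2 hX') s3
              (Real.rpow_nonneg (by linarith) _) (mul_nonneg (Real.rpow_nonneg hc₁.le _) hX')
          calc c₂ * c₁ * (X * R.card) ^ ((1 - η) ^ (k + 1))
              = c₂ * (c₁ * (X * R.card) ^ ((1 - η) ^ (k + 1))) := by ring
            _ ≤ c₂ * (((A * Pk f' S' t').card : ℝ) * R.card) ^ (1 - η) :=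
              mul_le_mul_of_nonneg_left (s5.trans s1) hc₂.le
    have hcard : ((bad (c₂ * c₁) ((1 - η) ^ (k + 1)) T f A S).card : ℝ) ≤
        (Bk.card : ℝ) * T.card + (T.card : ℝ) ^ k * M := by
      have c1 : ((bad (c₂ * c₁) ((1 - η) ^ (k + 1)) T f A S).card : ℝ) ≤
          (((Bk ×ˢ T).image fun q : (Fin k → ℤ) × ℤ =>
            (Fin.snoc (α := fun _ => ℤ) q.1 q.2 : Fin (k + 1) → ℤ)).card : ℝ) +
          (((((Fintype.piFinset fun _ : Fin k => T) \ Bk).biUnion fun t' =>
            (L t').image fun x => (Fin.snoc (α := fun _ => ℤ) t' x : Fin (k + 1) → ℤ))).card :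
              ℝ) := by
        exact_mod_cast (card_le_card hsub).trans (card_union_le _ _)
      refine c1.trans (add_le_add ?_ ?_)
      · have := card_image_le (s := Bk ×ˢ T) (f := fun q : (Fin k → ℤ) × ℤ =>
            (Fin.snoc (α := fun _ => ℤ) q.1 q.2 : Fin (k + 1) → ℤ))
        rw [card_product] at this
        exact_mod_cast this
      · have c2 : (((((Fintype.piFinset fun _ : Fin k => T) \ Bk).biUnion fun t' =>
            (L t').image fun x => (Fin.snoc (α := fun _ => ℤ) t' x : Fin (k + 1) → ℤ))).card :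
              ℝ) ≤ ∑ t' ∈ (Fintype.piFinset fun _ : Fin k => T) \ Bk,
                (((L t').image fun x =>
                  (Fin.snoc (α := fun _ => ℤ) t' x : Fin (k + 1) → ℤ)).card : ℝ) := by
          exact_mod_cast card_biUnion_le
        refine c2.trans ?_
        have c3 : ∀ t' ∈ (Fintype.piFinset fun _ : Fin k => T) \ Bk,
            (((L t').image fun x =>
              (Fin.snoc (α := fun _ => ℤ) t' x : Fin (k + 1) → ℤ)).card : ℝ) ≤ M := by
          intro t' ht'
          rw [mem_sdiff] at ht'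
          have : ∃ x ∈ A * Pk f' S' t', x ≠ 0 := by
            have h3 := ht'.2
            rw [hBk] at h3
            unfold bad at h3
            rw [mem_filter, not_and] at h3
            have := h3 ht'.1
            rw [not_or] at this
            push Not at this
            exact this.1
          refine le_trans ?_ (hLc t' this)
          exact_mod_cast card_image_le
        refine (sum_le_sum c3).trans ?_
        rw [sum_const, nsmul_eq_mul]
        refine mul_le_mul_of_nonneg_right ?_ hM0
        have c4 : ((Fintype.piFinset fun _ : Fin k => T) \ Bk).card ≤ T.card ^ k := by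
          refine (card_le_card sdiff_subset).trans (le_of_eq ?_)
          rw [Fintype.card_piFinset]
          simp
        exact_mod_cast c4
    have hT0 : (0 : ℝ) ≤ T.card := by positivity
    have := mul_le_mul_of_nonneg_left hcard hT0
    have h5 := mul_le_mul_of_nonneg_right IH hT0
    push_cast
    calc (T.card : ℝ) * (bad (c₂ * c₁) ((1 - η) ^ (k + 1)) T f A S).card
        ≤ T.card * ((Bk.card : ℝ) * T.card + (T.card : ℝ) ^ k * M) := this
      _ = T.card * (Bk.card : ℝ) * T.card + M * (T.card : ℝ) ^ (k + 1) := by ring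
      _ ≤ k * M * (T.card : ℝ) ^ k * T.card + M * (T.card : ℝ) ^ (k + 1) := by linarith
      _ = ((k : ℝ) + 1) * M * (T.card : ℝ) ^ (k + 1) := by ring

end Pool.Agent.Q247.OK
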