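import Mathlib
import Pool.Agent.Q247.OK.Shift

/-!
# `k`-fold products of shifted sets: the final theorems
-/

set_option autoImplicit false

namespace Pool.Agent.Q247.OK

open Finset Polynomial Pool.Agent.Q247.OS
open scoped Classical Pointwise

/-- **Almost all tuples of shifts.** -/
theorem kshifts (k d : ℕ) (hk : 1 ≤ k) (hd : 1 ≤ d) (ε : ℝ) (hε : 0 < ε) (hε1 : ε ≤ 1) (N : ℕ) :
    ∃ c : ℝ, 0 < c ∧ ∀ T ⊆ Icc (-(N : ℤ)) N, ∀ (f : Fin k → ℤ[X]) (A : Finset ℤ)
      (S : Fin k → Finset ℤ), (∀ i, (f i).IsPrimitive) → (∀ i, 1 ≤ (f i).natDegree) →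
      (∀ i, (f i).natDegree ≤ d) → (∃ a ∈ A, a ≠ 0) → (∀ i, (S i).Nonempty) →
      (T.card : ℝ) * ((Fintype.piFinset fun _ : Fin k => T).filter fun t =>
        ((A * Pk f S t).card : ℝ) < c * ((A.card : ℝ) * ∏ i, ((S i).card : ℝ)) ^ (1 - ε)).card ≤
        3 * d * k * Real.exp (9 * k / ε) * (T.card : ℝ) ^ k := by
  have hkr : (1 : ℝ) ≤ k := by exact_mod_cast hk
  have hη : 0 < ε / k := by positivity
  have hη1 : ε / k ≤ 1 := by
    rw [div_le_one (by linarith)]
    linarith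
  obtain ⟨c, hc, hc1, h⟩ := iter d hd (ε / k) hη hη1 N k
  refine ⟨c, hc, fun T hT f A S hf hf1 hfd hA hS => ?_⟩
  have h1 := h T hT f A S hf hf1 hfd hA hS
  have e9 : 9 / (ε / k) = 9 * k / ε := by
    field_simp
  rw [e9] at h1
  have hT0 : (0 : ℝ) ≤ T.card := by positivity
  have hsub : ((Fintype.piFinset fun _ : Fin k => T).filter fun t =>
        ((A * Pk f S t).card : ℝ) < c * ((A.card : ℝ) * ∏ i, ((S i).card : ℝ)) ^ (1 - ε)) ⊆
      bad c ((1 - ε / k) ^ k) T f A S := by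
    intro t ht
    unfold bad
    rw [mem_filter] at ht ⊢
    refine ⟨ht.1, Or.inr (lt_of_lt_of_le ht.2 ?_)⟩
    refine mul_le_mul_of_nonneg_left ?_ hc.le
    have hA1 : (1 : ℝ) ≤ A.card := by
      obtain ⟨a, ha, -⟩ := hA
      exact_mod_cast card_pos.2 ⟨a, ha⟩
    have hP1 : (1 : ℝ) ≤ ∏ i, ((S i).card : ℝ) := by
      have : 1 ≤ ∏ i, (S i).card :=
        Nat.one_le_iff_ne_zero.2 (prod_ne_zero_iff.2 fun i _ => (card_pos.2 (hS _)).ne')
      exact_mod_cast this
    refine Real.rpow_le_rpow_of_exponent_le (by nlinarith) ?_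
    have hb := one_add_mul_le_pow (show (-2 : ℝ) ≤ -(ε / k) by linarith) k
    have e1 : 1 + (k : ℝ) * -(ε / k) = 1 - ε := by
      field_simp
      ring
    rw [e1] at hb
    have e2 : (1 : ℝ) + -(ε / k) = 1 - ε / k := by ring
    rwa [e2] at hb
  have h2 := mul_le_mul_of_nonneg_left (Nat.cast_le (α := ℝ).2 (card_le_card hsub)) hT0
  calc _ ≤ (T.card : ℝ) * (bad c ((1 - ε / k) ^ k) T f A S).card := h2
    _ ≤ k * (3 * d * Real.exp (9 * k / ε)) * (T.card : ℝ) ^ k := h1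
    _ = _ := by ring

/-- **The sets `A + T`.** -/
theorem thick (k : ℕ) (hk : 1 ≤ k) (ε : ℝ) (hε : 0 < ε) (hε1 : ε ≤ 1) (N : ℕ) :
    ∃ c : ℝ, 0 < c ∧ ∀ A T : Finset ℤ, A.Nonempty → T ⊆ Icc (-(N : ℤ)) N →
      3 * k * Real.exp (9 * (k : ℝ) ^ 2 / ε) < T.card →
      c * ((A + T).card : ℝ) ^ ((k : ℝ) - ε) ≤
        ((Fintype.piFinset fun _ : Fin k => A + T).image fun a => ∏ i, a i).card := by
  have hkr : (1 : ℝ) ≤ k := by exact_mod_cast hk
  have hη : 0 < ε / k := by positivity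
  have hη1 : ε / k ≤ 1 := by
    rw [div_le_one (by linarith)]
    linarith
  obtain ⟨c, hc, h⟩ := kshifts k 1 hk le_rfl (ε / k) hη hη1 N
  refine ⟨c / (2 * N + 1) ^ k, by positivity, fun A T hA hT hTc => ?_⟩
  have h1 := h T hT (fun _ => X) {1} (fun _ => A) (fun _ => monic_X.isPrimitive)
    (fun _ => by rw [natDegree_X]) (fun _ => by rw [natDegree_X]) ⟨1, mem_singleton_self _, one_ne_zero⟩
    fun _ => hA
  have e9 : 9 * (k : ℝ) / (ε / k) = 9 * (k : ℝ) ^ 2 / ε := by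
    field_simp
  rw [e9] at h1
  have hT0 : (0 : ℝ) < T.card := lt_of_le_of_lt (by positivity) hTc
  set Bd := (Fintype.piFinset fun _ : Fin k => T).filter fun t =>
        ((({1} : Finset ℤ) * Pk (fun _ => X) (fun _ => A) t).card : ℝ) <
          c * ((({1} : Finset ℤ).card : ℝ) * ∏ _i : Fin k, (A.card : ℝ)) ^ (1 - ε / k) with hBd
  have hlt : (Bd.card : ℝ) < (T.card : ℝ) ^ k := by
    have h2 : (T.card : ℝ) * Bd.card < T.card * (T.card : ℝ) ^ k := by
      refine lt_of_le_of_lt h1 ?_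
      push_cast
      refine mul_lt_mul_of_pos_right ?_ (by positivity)
      calc 3 * 1 * (k : ℝ) * Real.exp (9 * (k : ℝ) ^ 2 / ε)
          = 3 * k * Real.exp (9 * (k : ℝ) ^ 2 / ε) := by ring
        _ < T.card := hTc
    exact lt_of_mul_lt_mul_left h2 hT0.le
  obtain ⟨t, ht, htB⟩ : ∃ t ∈ (Fintype.piFinset fun _ : Fin k => T), t ∉ Bd := by
    by_contra hcon
    push Not at hcon
    have h3 : (Fintype.piFinset fun _ : Fin k => T).card ≤ Bd.card := card_le_card hcon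
    rw [Fintype.card_piFinset] at h3
    simp only [prod_const, card_univ, Fintype.card_fin] at h3
    have h4 : (T.card : ℝ) ^ k ≤ Bd.card := by exact_mod_cast h3
    linarith
  rw [hBd, mem_filter, not_and] at htB
  have h5 := not_lt.1 (htB ht)
  rw [singleton_one, one_mul, card_one, Nat.cast_one, one_mul, prod_const, card_univ,
    Fintype.card_fin] at h5
  have hA1 : (1 : ℝ) ≤ A.card := by exact_mod_cast card_pos.2 hA
  have e10 : ((A.card : ℝ) ^ k) ^ (1 - ε / k) = (A.card : ℝ) ^ ((k : ℝ) - ε) := by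
    rw [← Real.rpow_natCast, ← Real.rpow_mul (by linarith)]
    congr 1
    field_simp
  rw [e10] at h5
  have h6 : (Pk (fun _ : Fin k => (X : ℤ[X])) (fun _ => A) t).card ≤
      ((Fintype.piFinset fun _ : Fin k => A + T).image fun a => ∏ i, a i).card := by
    refine card_le_card fun x hx => ?_
    unfold Pk at hx
    rw [mem_image] at hx ⊢
    obtain ⟨s, hs, rfl⟩ := hx
    refine ⟨fun i => s i + t i, Fintype.mem_piFinset.2 fun i =>
      add_mem_add (Fintype.mem_piFinset.1 hs i) (Fintype.mem_piFinset.1 ht i), ?_⟩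
    refine prod_congr rfl fun i _ => ?_
    rw [eval_X]
  have hTN : (T.card : ℝ) ≤ 2 * N + 1 := by
    have h7 := card_le_card hT
    rw [Int.card_Icc] at h7
    have : T.card ≤ 2 * N + 1 := by omega
    exact_mod_cast this
  have h8 : ((A + T).card : ℝ) ≤ (2 * N + 1) * A.card := by
    have h9 : ((A + T).card : ℝ) ≤ A.card * T.card := by exact_mod_cast card_add_le
    nlinarith
  have hkε : 0 ≤ (k : ℝ) - ε := by linarith
  have h10 : ((A + T).card : ℝ) ^ ((k : ℝ) - ε) ≤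
      (2 * (N : ℝ) + 1) ^ k * (A.card : ℝ) ^ ((k : ℝ) - ε) := by
    have h11 := Real.rpow_le_rpow (by positivity) h8 hkε
    rw [Real.mul_rpow (by positivity) (by positivity)] at h11
    refine h11.trans (mul_le_mul_of_nonneg_right ?_ (Real.rpow_nonneg (by positivity) _))
    rw [← Real.rpow_natCast]
    refine Real.rpow_le_rpow_of_exponent_le ?_ (by linarith)
    have : (0 : ℝ) ≤ N := by positivity
    linarith
  have hN0 : (0 : ℝ) < (2 * (N : ℝ) + 1) ^ k := by positivity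
  calc c / (2 * (N : ℝ) + 1) ^ k * ((A + T).card : ℝ) ^ ((k : ℝ) - ε)
      ≤ c / (2 * (N : ℝ) + 1) ^ k * ((2 * (N : ℝ) + 1) ^ k * (A.card : ℝ) ^ ((k : ℝ) - ε)) :=
        mul_le_mul_of_nonneg_left h10 (by positivity)
    _ = c * (A.card : ℝ) ^ ((k : ℝ) - ε) := by field_simp
    _ ≤ (Pk (fun _ : Fin k => (X : ℤ[X])) (fun _ => A) t).card := h5
    _ ≤ _ := by exact_mod_cast h6

end Pool.Agent.Q247.OK
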