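import Mathlib
import Pool.Agent.Q247.OS.Thm

/-!
# Products of an arbitrary set with `k` sets with unpopular primes
-/

set_option autoImplicit false

namespace Pool.Agent.Q247.OK

open Finset Pool.Agent.Y359.PE Pool.Agent.Q247.OS Pool.Agent.Q247.KP
open scoped Classical Pointwise

/-- the product set of `k` sets -/
def PB {k : ℕ} (B : Fin k → Finset ℤ) : Finset ℤ :=
  (Fintype.piFinset B).image fun b => ∏ i, b i

lemma PB_zero (B : Fin 0 → Finset ℤ) : PB B = {1} := by
  unfold PB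
  ext x
  rw [mem_image, mem_singleton]
  constructor
  · rintro ⟨s, -, rfl⟩
    simp
  · rintro rfl
    exact ⟨fun i => i.elim0, Fintype.mem_piFinset.2 fun i => i.elim0, by simp⟩

lemma PB_succ {k : ℕ} (B : Fin (k + 1) → Finset ℤ) :
    PB B = PB (fun i : Fin k => B i.castSucc) * B (Fin.last k) := by
  unfold PB
  ext x
  rw [mem_image, mem_mul]
  constructor
  · rintro ⟨s, hs, rfl⟩
    rw [Fintype.mem_piFinset] at hs
    refine ⟨_, mem_image_of_mem _ (Fintype.mem_piFinset.2 fun i => hs i.castSucc), _,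
      hs (Fin.last k), ?_⟩
    rw [Fin.prod_univ_castSucc]
  · rintro ⟨y, hy, z, hz, rfl⟩
    rw [mem_image] at hy
    obtain ⟨s, hs, rfl⟩ := hy
    refine ⟨Fin.snoc s z, Fintype.mem_piFinset.2 fun i => ?_, ?_⟩
    · refine Fin.lastCases ?_ (fun j => ?_) i
      · rw [Fin.snoc_last]
        exact hz
      · rw [Fin.snoc_castSucc]
        exact Fintype.mem_piFinset.1 hs j
    · rw [Fin.prod_univ_castSucc]
      simp only [Fin.snoc_castSucc, Fin.snoc_last]

lemma PB_nonempty {k : ℕ} (B : Fin k → Finset ℤ) (hB : ∀ i, (B i).Nonempty) :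
    (PB B).Nonempty := by
  choose b hb using hB
  exact ⟨_, mem_image_of_mem _ (Fintype.mem_piFinset.2 hb)⟩

lemma PB_zero_notMem {k : ℕ} (B : Fin k → Finset ℤ) (hB : ∀ i, (0 : ℤ) ∉ B i) :
    (0 : ℤ) ∉ PB B := by
  intro h
  unfold PB at h
  rw [mem_image] at h
  obtain ⟨s, hs, h0⟩ := h
  rw [prod_eq_zero_iff] at h0
  obtain ⟨i, -, hi⟩ := h0
  exact hB i (hi ▸ Fintype.mem_piFinset.1 hs i)

/-- iteration of one-sided product inequalities -/
lemma iterSets {η : ℝ} (hη0 : 0 ≤ η) (hη : η ≤ 1) (k : ℕ) (K : Fin k → ℝ) (hK : ∀ i, 1 ≤ K i)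
    (B : Fin k → Finset ℤ) (hB : ∀ i, (B i).Nonempty) (hB0 : ∀ i, (0 : ℤ) ∉ B i)
    (h : ∀ i, ∀ Y : Finset ℤ, Y.Nonempty → (0 : ℤ) ∉ Y →
      ((Y.card : ℝ) * (B i).card) ^ (1 - η) ≤ K i * (Y * B i).card)
    (A : Finset ℤ) (hA : A.Nonempty) (hA0 : (0 : ℤ) ∉ A) :
    ((A.card : ℝ) * ∏ i, ((B i).card : ℝ)) ^ ((1 - η) ^ k) ≤ (∏ i, K i) * (A * PB B).card := by
  induction k with
  | zero =>
    rw [PB_zero, singleton_one, mul_one]
    simp
  | succ k ih =>
    have IH := ih (fun i => K i.castSucc) (fun i => hK _) (fun i => B i.castSucc)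
      (fun i => hB _) (fun i => hB0 _) (fun i => h _)
    set Y := A * PB (fun i : Fin k => B i.castSucc) with hY
    have hYn : Y.Nonempty := hA.mul (PB_nonempty _ fun i => hB _)
    have hY0 : (0 : ℤ) ∉ Y := by
      intro h0
      obtain ⟨a, ha, b, hb, hab⟩ := mem_mul.1 h0
      rcases mul_eq_zero.1 hab with h | h
      · exact hA0 (h ▸ ha)
      · exact PB_zero_notMem _ (fun i => hB0 _) (h ▸ hb)
    have h1 := h (Fin.last k) Y hYn hY0
    rw [PB_succ, ← mul_assoc, ← hY, Fin.prod_univ_castSucc, Fin.prod_univ_castSucc]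
    set X : ℝ := (A.card : ℝ) * ∏ i : Fin k, ((B i.castSucc).card : ℝ) with hX
    set R : ℝ := ((B (Fin.last k)).card : ℝ) with hR
    set D : ℝ := ∏ i : Fin k, K i.castSucc with hD
    have hA1 : (1 : ℝ) ≤ A.card := by exact_mod_cast card_pos.2 hA
    have hP1 : (1 : ℝ) ≤ ∏ i : Fin k, ((B i.castSucc).card : ℝ) := by
      have : 1 ≤ ∏ i : Fin k, (B i.castSucc).card :=
        Nat.one_le_iff_ne_zero.2 (prod_ne_zero_iff.2 fun i _ => (card_pos.2 (hB _)).ne')
      exact_mod_cast this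
    have hX1 : 1 ≤ X := by rw [hX]; nlinarith
    have hR1 : 1 ≤ R := by rw [hR]; exact_mod_cast card_pos.2 (hB _)
    have hD1 : 1 ≤ D := by
      rw [hD]
      have := prod_le_prod (s := (univ : Finset (Fin k))) (f := fun _ => (1 : ℝ))
        (g := fun i => K i.castSucc) (fun _ _ => zero_le_one) fun i _ => hK _
      simpa using this
    have hY1 : (1 : ℝ) ≤ Y.card := by exact_mod_cast card_pos.2 hYn
    have he0 : 0 ≤ 1 - η := by linarith
    have hek : 0 ≤ (1 - η) ^ k := pow_nonneg he0 k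
    have hek1 : (1 - η) ^ k ≤ 1 := pow_le_one₀ he0 (by linarith)
    have hXe : 0 < X ^ ((1 - η) ^ k) := Real.rpow_pos_of_pos (by linarith) _
    rw [← mul_assoc, ← hX]
    have s1 : (X ^ ((1 - η) ^ k)) ^ (1 - η) ≤ (D * Y.card) ^ (1 - η) :=
      Real.rpow_le_rpow hXe.le IH he0
    have s2 : (X ^ ((1 - η) ^ k)) ^ (1 - η) = X ^ ((1 - η) ^ (k + 1)) := by
      rw [← Real.rpow_mul (by linarith), ← pow_succ]
    have s3 : R ^ ((1 - η) ^ (k + 1)) ≤ R ^ (1 - η) := by
      refine Real.rpow_le_rpow_of_exponent_le hR1 ?_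
      rw [pow_succ]
      exact mul_le_of_le_one_left he0 hek1
    have s4 : D ^ (1 - η) ≤ D := by
      have := Real.rpow_le_rpow_of_exponent_le hD1 (show 1 - η ≤ 1 by linarith)
      rwa [Real.rpow_one] at this
    have hRe : 0 ≤ R ^ (1 - η) := Real.rpow_nonneg (by linarith) _
    have hYe : 0 ≤ (Y.card : ℝ) ^ (1 - η) := Real.rpow_nonneg (by linarith) _
    calc (X * R) ^ ((1 - η) ^ (k + 1))
        = X ^ ((1 - η) ^ (k + 1)) * R ^ ((1 - η) ^ (k + 1)) :=
          Real.mul_rpow (by linarith) (by linarith)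
      _ ≤ (D * Y.card) ^ (1 - η) * R ^ (1 - η) := by
          rw [← s2]
          exact mul_le_mul s1 s3 (Real.rpow_nonneg (by linarith) _)
            (Real.rpow_nonneg (by positivity) _)
      _ = D ^ (1 - η) * ((Y.card : ℝ) * R) ^ (1 - η) := by
          rw [Real.mul_rpow (by linarith) (by linarith), Real.mul_rpow (by linarith) (by linarith)]
          ring
      _ ≤ D * ((Y.card : ℝ) * R) ^ (1 - η) :=
          mul_le_mul_of_nonneg_right s4 (Real.rpow_nonneg (by positivity) _)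
      _ ≤ D * (K (Fin.last k) * (Y * B (Fin.last k)).card) :=
          mul_le_mul_of_nonneg_left h1 (by linarith)
      _ = D * K (Fin.last k) * (Y * B (Fin.last k)).card := by ring

/-- **Product of an arbitrary set and `k` sets with unpopular primes.** -/
theorem oneSidedK (k : ℕ) (L : ℝ) (hL : 1 < L) (A : Finset ℤ) (B : Fin k → Finset ℤ)
    (hA : A.Nonempty) (hB : ∀ i, (B i).Nonempty)
    (h0 : (0 : ℤ) ∉ A) (h0' : ∀ i, (0 : ℤ) ∉ B i) (P : Fin k → Finset ℕ)
    (hP : ∀ i, ∀ p ∈ P i, p.Prime)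
    (hpop : ∀ i, ∀ p : ℕ, p.Prime → p ∉ P i →
      ∃ e : ℕ, L * (((B i).filter fun a => fa a p ≠ e).card : ℝ) ≤ (B i).card) :
    ((A.card : ℝ) * ∏ i, ((B i).card : ℝ)) ^ (1 - 9 * k / Real.log L) ≤
      4 ^ k * (∏ i, (((B i).image (part (P i))).card : ℝ)) * (A * PB B).card := by
  have hl0 : 0 < Real.log L := Real.log_pos hL
  have hA1 : (1 : ℝ) ≤ A.card := by exact_mod_cast card_pos.2 hA
  have hP1 : (1 : ℝ) ≤ ∏ i : Fin k, ((B i).card : ℝ) := by
    have : 1 ≤ ∏ i : Fin k, (B i).card :=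
      Nat.one_le_iff_ne_zero.2 (prod_ne_zero_iff.2 fun i _ => (card_pos.2 (hB _)).ne')
    exact_mod_cast this
  have hX1 : 1 ≤ (A.card : ℝ) * ∏ i, ((B i).card : ℝ) := by nlinarith
  have hD1 : ∀ i, (1 : ℝ) ≤ ((B i).image (part (P i))).card := fun i => by
    exact_mod_cast card_pos.2 ((hB i).image _)
  rcases le_or_gt (9 / Real.log L) 1 with h9 | h9
  · have h := iterSets (η := 9 / Real.log L) (by positivity) h9 k
      (fun i => 4 * ((B i).image (part (P i))).card) (fun i => by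
        have := hD1 i
        linarith) B hB h0' (fun i Y hY hY0 =>
          oneSided L hL Y (B i) hY (hB i) hY0 (h0' i) (P i) (hP i) (hpop i)) A hA h0
    have e1 : (∏ i : Fin k, (4 : ℝ) * (((B i).image (part (P i))).card : ℝ)) =
        4 ^ k * ∏ i, (((B i).image (part (P i))).card : ℝ) := by
      rw [prod_mul_distrib, prod_const, card_univ, Fintype.card_fin]
    rw [e1] at h
    refine le_trans (Real.rpow_le_rpow_of_exponent_le hX1 ?_) h
    have hb := one_add_mul_le_pow (show (-2 : ℝ) ≤ -(9 / Real.log L) by linarith) k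
    have e2 : 1 + (k : ℝ) * -(9 / Real.log L) = 1 - 9 * k / Real.log L := by ring
    have e3 : (1 : ℝ) + -(9 / Real.log L) = 1 - 9 / Real.log L := by ring
    rw [e2, e3] at hb
    exact hb
  · rcases Nat.eq_zero_or_pos k with rfl | hk
    · rw [PB_zero, singleton_one, mul_one]
      simp
    have hkr : (1 : ℝ) ≤ k := by exact_mod_cast hk
    have h1 : ((A.card : ℝ) * ∏ i, ((B i).card : ℝ)) ^ (1 - 9 * k / Real.log L) ≤ 1 := by
      refine Real.rpow_le_one_of_one_le_of_nonpos hX1 ?_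
      have : 9 / Real.log L ≤ 9 * k / Real.log L := by
        refine div_le_div_of_nonneg_right ?_ hl0.le
        linarith
      linarith
    have h2 : (1 : ℝ) ≤ ∏ i, (((B i).image (part (P i))).card : ℝ) := by
      have : 1 ≤ ∏ i, ((B i).image (part (P i))).card :=
        Nat.one_le_iff_ne_zero.2 (prod_ne_zero_iff.2 fun i _ =>
          (card_pos.2 ((hB i).image _)).ne')
      exact_mod_cast this
    have h3 : (1 : ℝ) ≤ (A * PB B).card := by
      exact_mod_cast card_pos.2 (hA.mul (PB_nonempty B hB))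
    have h4 : (1 : ℝ) ≤ 4 ^ k := one_le_pow₀ (by norm_num)
    refine h1.trans ?_
    have h5 : (1 : ℝ) ≤ 4 ^ k * ∏ i, (((B i).image (part (P i))).card : ℝ) := by nlinarith
    nlinarith

end Pool.Agent.Q247.OK
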