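import Mathlib
import Pool.Agent.Q247.OK.Sets

/-!
# Products of an arbitrary set with `k` unions of long runs of polynomial values
-/

set_option autoImplicit false

namespace Pool.Agent.Q247.OK

open Finset Polynomial Pool.Agent.Y359.PE Pool.Agent.Q247.OS Pool.Agent.Q247.KP
open scoped Classical Pointwise

lemma longRuns_mono {d D L L' : ℕ} (h : L ≤ L') {B : Finset ℤ} (hB : LongRuns d D L' B) :
    LongRuns d D L B := by
  obtain ⟨ι, I, f, a, n, h1, h2, h3⟩ := hB
  exact ⟨ι, I, f, a, n, fun j hj => ⟨(h1 j hj).1, (h1 j hj).2.1, (h1 j hj).2.2.1,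
    h.trans (h1 j hj).2.2.2⟩, h2, h3⟩

/-- a union of runs of more than `d` values has a nonzero element -/
lemma longRuns_nonzero {d D L : ℕ} (hL : d < L) {B : Finset ℤ} (hBn : B.Nonempty)
    (hB : LongRuns d D L B) : ∃ b ∈ B, b ≠ 0 := by
  obtain ⟨ι, I, f, a, n, h1, h2, -⟩ := hB
  obtain ⟨x, hx⟩ := hBn
  obtain ⟨j, hj, -⟩ := (h2 x).1 hx
  obtain ⟨hp, -, hd, hn⟩ := h1 j hj
  by_contra hcon
  push Not at hcon
  have h4 : (range (d + 1)).card ≤ (f j).roots.toFinset.card := by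
    refine card_le_card_of_injOn (fun t : ℕ => a j + (t : ℤ)) ?_ ?_
    · intro t ht
      rw [mem_coe, mem_range] at ht
      rw [mem_coe, Multiset.mem_toFinset, mem_roots hp.ne_zero]
      exact hcon _ ((h2 _).2 ⟨j, hj, t, by omega, rfl⟩)
    · intro s _ t _ hst
      have : (s : ℤ) = t := add_left_cancel hst
      exact_mod_cast this
  rw [card_range] at h4
  have h5 := (Multiset.toFinset_card_le (f j).roots).trans (card_roots' (f j))
  omega

lemma le_two_erase {B : Finset ℤ} (hB : ∃ b ∈ B, b ≠ 0) :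
    (B.card : ℝ) ≤ 2 * (B.erase 0).card := by
  obtain ⟨b, hb, hb0⟩ := hB
  have h3 : 1 ≤ (B.erase 0).card := card_pos.2 ⟨b, mem_erase.2 ⟨hb0, hb⟩⟩
  have h5 : B.card - 1 ≤ (B.erase 0).card := pred_card_le_card_erase
  have : B.card ≤ 2 * (B.erase 0).card := by omega
  exact_mod_cast this

/-- **An arbitrary set and `k` unions of long runs.** -/
theorem arb_runsk (k d D : ℕ) (hk : 1 ≤ k) (hd : 1 ≤ d) (hD : 1 ≤ D) (ε : ℝ) (hε : 0 < ε)
    (hε1 : ε ≤ 1) :
    ∃ (L : ℕ) (c : ℝ), 1 ≤ L ∧ 0 < c ∧ ∀ (A : Finset ℤ) (B : Fin k → Finset ℤ),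
      (∃ a ∈ A, a ≠ 0) → (∀ i, (B i).Nonempty) → (∀ i, LongRuns d D L (B i)) →
      c * ((A.card : ℝ) * ∏ i, ((B i).card : ℝ)) ^ (1 - ε) ≤ (A * PB B).card := by
  have hkr : (1 : ℝ) ≤ k := by exact_mod_cast hk
  have hη : 0 < ε / k := by positivity
  have hη1 : ε / k ≤ 1 := by
    rw [div_le_one (by linarith)]
    linarith
  obtain ⟨L₀, c₀, hL₀, hc₀, h⟩ := arb_longRuns d D hd hD (ε / k) hη hη1
  set K : ℝ := 2 / c₀ + 1 with hK
  have hK1 : 1 ≤ K := by
    rw [hK]
    have : 0 < 2 / c₀ := by positivity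
    linarith
  refine ⟨max L₀ (d + 1), 1 / (2 ^ (k + 1) * K ^ k), le_max_of_le_left hL₀, by positivity,
    fun A B hA hB hr => ?_⟩
  have hnz : ∀ i, ∃ b ∈ B i, b ≠ 0 := fun i =>
    longRuns_nonzero (lt_of_lt_of_le (Nat.lt_succ_self d) (le_max_right _ _)) (hB i) (hr i)
  have hBn : ∀ i, ((B i).erase 0).Nonempty := fun i => by
    obtain ⟨b, hb, hb0⟩ := hnz i
    exact ⟨b, mem_erase.2 ⟨hb0, hb⟩⟩
  have hAn : (A.erase 0).Nonempty := by
    obtain ⟨b, hb, hb0⟩ := hA
    exact ⟨b, mem_erase.2 ⟨hb0, hb⟩⟩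
  have main := iterSets (η := ε / k) hη.le hη1 k (fun _ => K) (fun _ => hK1)
    (fun i => (B i).erase 0) hBn (fun i => notMem_erase 0 _) (fun i Y hY hY0 => by
      have h1 := h Y (B i) hY hY0 (hB i) (longRuns_mono (le_max_left _ _) (hr i))
      have h2 : ((Y * B i).card : ℝ) ≤ 2 * (Y * (B i).erase 0).card := by
        have h3 : Y * B i ⊆ insert 0 (Y * (B i).erase 0) := by
          intro z hz
          obtain ⟨y, hy, b, hb, rfl⟩ := mem_mul.1 hz
          rcases eq_or_ne b 0 with rfl | hb0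
          · rw [mul_zero]
            exact mem_insert_self _ _
          · exact mem_insert_of_mem (mul_mem_mul hy (mem_erase.2 ⟨hb0, hb⟩))
        have h4 := (card_le_card h3).trans (card_insert_le _ _)
        have h5 : 1 ≤ (Y * (B i).erase 0).card := card_pos.2 (hY.mul (hBn i))
        have : (Y * B i).card ≤ 2 * (Y * (B i).erase 0).card := by omega
        exact_mod_cast this
      have h6 : ((Y.card : ℝ) * ((B i).erase 0).card) ^ (1 - ε / k) ≤
          ((Y.card : ℝ) * (B i).card) ^ (1 - ε / k) := by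
        refine Real.rpow_le_rpow (by positivity) ?_ (by linarith)
        refine mul_le_mul_of_nonneg_left ?_ (by positivity)
        exact_mod_cast card_le_card (erase_subset _ _)
      have h7 : c₀ * ((Y.card : ℝ) * ((B i).erase 0).card) ^ (1 - ε / k) ≤
          2 * (Y * (B i).erase 0).card :=
        ((mul_le_mul_of_nonneg_left h6 hc₀.le).trans h1).trans h2
      have h8 : ((Y.card : ℝ) * ((B i).erase 0).card) ^ (1 - ε / k) ≤
          2 / c₀ * (Y * (B i).erase 0).card := by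
        rw [div_mul_eq_mul_div, le_div_iff₀ hc₀, mul_comm]
        exact h7
      refine h8.trans (mul_le_mul_of_nonneg_right ?_ (by positivity))
      rw [hK]
      linarith) (A.erase 0) hAn (notMem_erase 0 _)
  rw [prod_const, card_univ, Fintype.card_fin] at main
  have hsub : ((A.erase 0 * PB fun i => (B i).erase 0).card : ℝ) ≤ (A * PB B).card := by
    have : A.erase 0 * (PB fun i => (B i).erase 0) ⊆ A * PB B := by
      refine mul_subset_mul (erase_subset _ _) ?_
      unfold PB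
      exact image_subset_image (Fintype.piFinset_subset _ _ fun i => erase_subset _ _)
    exact_mod_cast card_le_card this
  set X' : ℝ := ((A.erase 0).card : ℝ) * ∏ i, (((B i).erase 0).card : ℝ) with hX'
  set X : ℝ := (A.card : ℝ) * ∏ i, ((B i).card : ℝ) with hX
  have hA1 : (1 : ℝ) ≤ (A.erase 0).card := by exact_mod_cast card_pos.2 hAn
  have hP1 : (1 : ℝ) ≤ ∏ i : Fin k, (((B i).erase 0).card : ℝ) := by
    have : 1 ≤ ∏ i : Fin k, ((B i).erase 0).card :=
      Nat.one_le_iff_ne_zero.2 (prod_ne_zero_iff.2 fun i _ => (card_pos.2 (hBn _)).ne')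
    exact_mod_cast this
  have hX'1 : 1 ≤ X' := by rw [hX']; nlinarith
  have hXX' : X ≤ 2 ^ (k + 1) * X' := by
    have h1 : ∏ i, ((B i).card : ℝ) ≤ ∏ i, (2 * (((B i).erase 0).card : ℝ)) :=
      prod_le_prod (fun _ _ => by positivity) fun i _ => le_two_erase (hnz i)
    rw [prod_mul_distrib, prod_const, card_univ, Fintype.card_fin] at h1
    calc X ≤ (2 * ((A.erase 0).card : ℝ)) *
          (2 ^ k * ∏ i, (((B i).erase 0).card : ℝ)) :=
          mul_le_mul (le_two_erase hA) h1 (by positivity) (by positivity)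
      _ = 2 ^ (k + 1) * X' := by rw [hX']; ring
  have hX0 : 0 ≤ X := by positivity
  have h1ε : 0 ≤ 1 - ε := by linarith
  have e1 : X ^ (1 - ε) ≤ 2 ^ (k + 1) * X' ^ (1 - ε) := by
    have h1 := Real.rpow_le_rpow hX0 hXX' h1ε
    have h10 : ((2 : ℝ) ^ (k + 1) * X') ^ (1 - ε) =
        ((2 : ℝ) ^ (k + 1)) ^ (1 - ε) * X' ^ (1 - ε) :=
      Real.mul_rpow (by positivity) (by linarith)
    rw [h10] at h1
    refine h1.trans (mul_le_mul_of_nonneg_right ?_ (Real.rpow_nonneg (by linarith) _))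
    have h2 := Real.rpow_le_rpow_of_exponent_le (show (1 : ℝ) ≤ 2 ^ (k + 1) from
      one_le_pow₀ (by norm_num)) (show 1 - ε ≤ 1 by linarith)
    rwa [Real.rpow_one] at h2
  have e2 : X' ^ (1 - ε) ≤ X' ^ ((1 - ε / k) ^ k) := by
    refine Real.rpow_le_rpow_of_exponent_le hX'1 ?_
    have hb := one_add_mul_le_pow (show (-2 : ℝ) ≤ -(ε / k) by linarith) k
    have e1 : 1 + (k : ℝ) * -(ε / k) = 1 - ε := by
      field_simp
      ring
    rw [e1] at hb
    have e2 : (1 : ℝ) + -(ε / k) = 1 - ε / k := by ring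
    rwa [e2] at hb
  rw [div_mul_eq_mul_div, one_mul, div_le_iff₀ (by positivity)]
  calc X ^ (1 - ε) ≤ 2 ^ (k + 1) * X' ^ (1 - ε) := e1
    _ ≤ 2 ^ (k + 1) * X' ^ ((1 - ε / k) ^ k) := mul_le_mul_of_nonneg_left e2 (by positivity)
    _ ≤ 2 ^ (k + 1) * (K ^ k * (A.erase 0 * PB fun i => (B i).erase 0).card) :=
      mul_le_mul_of_nonneg_left main (by positivity)
    _ ≤ 2 ^ (k + 1) * (K ^ k * (A * PB B).card) := by
      refine mul_le_mul_of_nonneg_left (mul_le_mul_of_nonneg_left hsub ?_) (by positivity)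
      exact pow_nonneg (by linarith) k
    _ = (A * PB B).card * (2 ^ (k + 1) * K ^ k) := by ring

end Pool.Agent.Q247.OK
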